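import Pool.Agent.Helper73.TK.Defs

set_option autoImplicit false

namespace Pool.Agent.Helper73.TK

open Set Ordinal Cardinal

lemma mem_fubini {U : Ultrafilter ℕ} {S : Set (ℕ × ℕ)} :
    S ∈ fubini U U ↔ {n | {m | (n, m) ∈ S} ∈ U} ∈ U := Iff.rfl

/-- From Tukey reductions of directed sets to the explicit form used in the frozen statement. -/
theorem explicit {U : Ultrafilter ℕ} (h1 : TukeyLE (ℕ → ℕ) (Dir U))
    (h2 : TukeyLE (Dir U) (Dir (fubini U U))) (h3 : ¬ TukeyLE (Dir (fubini U U)) (Dir U)) :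
    (∃ f : (ℕ → ℕ) → Set ℕ, (∀ g, f g ∈ U) ∧
        ∀ B ∈ U, ∃ h : ℕ → ℕ, ∀ g, B ⊆ f g → g ≤ h) ∧
    (∃ f : Set ℕ → Set (ℕ × ℕ),
        (∀ A ∈ U, {n | {m | (n, m) ∈ f A} ∈ U} ∈ U) ∧
        ∀ B : Set (ℕ × ℕ), {n | {m | (n, m) ∈ B} ∈ U} ∈ U →
          ∃ C ∈ U, ∀ A ∈ U, B ⊆ f A → C ⊆ A) ∧
    ¬ (∃ f : Set (ℕ × ℕ) → Set ℕ,
        (∀ A : Set (ℕ × ℕ), {n | {m | (n, m) ∈ A} ∈ U} ∈ U → f A ∈ U) ∧
        ∀ B ∈ U, ∃ C : Set (ℕ × ℕ), {n | {m | (n, m) ∈ C} ∈ U} ∈ U ∧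
          ∀ A : Set (ℕ × ℕ), {n | {m | (n, m) ∈ A} ∈ U} ∈ U → B ⊆ f A → C ⊆ A) := by
  classical
  refine ⟨?_, ?_, ?_⟩
  · obtain ⟨f, hf⟩ := h1
    refine ⟨fun g => (f g).set, fun g => (f g).mem, fun B hB => ?_⟩
    have h : BddAbove {g : ℕ → ℕ | B ⊆ (f g).set} := by
      by_contra hcon
      apply hf _ hcon
      refine ⟨⟨B, hB⟩, ?_⟩
      rintro _ ⟨g, hg, rfl⟩
      exact hg
    obtain ⟨k, hk⟩ := h
    exact ⟨k, fun g hg => hk hg⟩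
  · obtain ⟨f, hf⟩ := h2
    refine ⟨fun A => if h : A ∈ U then (f ⟨A, h⟩).set else Set.univ, fun A hA => ?_, fun B hB => ?_⟩
    · simp only [dif_pos hA]
      exact mem_fubini.1 (f ⟨A, hA⟩).mem
    · have h : BddAbove {a : Dir U | B ⊆ (f a).set} := by
        by_contra hcon
        apply hf _ hcon
        refine ⟨⟨B, mem_fubini.2 hB⟩, ?_⟩
        rintro _ ⟨g, hg, rfl⟩
        exact hg
      obtain ⟨k, hk⟩ := h
      refine ⟨k.set, k.mem, fun A hA hB' => ?_⟩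
      simp only [dif_pos hA] at hB'
      exact hk (show (⟨A, hA⟩ : Dir U) ∈ {a : Dir U | B ⊆ (f a).set} from hB')
  · rintro ⟨f, hf1, hf2⟩
    apply h3
    refine ⟨fun A => ⟨f A.set, hf1 _ (mem_fubini.1 A.mem)⟩, fun X hX hcon => hX ?_⟩
    obtain ⟨b, hb⟩ := hcon
    obtain ⟨C, hC1, hC2⟩ := hf2 b.set b.mem
    refine ⟨⟨C, mem_fubini.2 hC1⟩, fun A hA => ?_⟩
    exact hC2 _ (mem_fubini.1 A.mem) (hb ⟨A, hA, rfl⟩)

end Pool.Agent.Helper73.TK
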