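import Mathlib

set_option autoImplicit false

namespace Pool.Agent.Helper73.TK

open Set Ordinal Cardinal

/-- Closed unbounded subsets of the first uncountable ordinal. -/
def IsClub (C : Set Ordinal.{0}) : Prop :=
  (∀ a ∈ C, a < ω₁) ∧ (∀ a < ω₁, ∃ b ∈ C, a < b) ∧
    ∀ d < ω₁, d ≠ 0 → (∀ a < d, ∃ b ∈ C, a < b ∧ b < d) → d ∈ C

/-- Jensen's principle Diamond on the first uncountable ordinal: there is a sequence `S d` (`d < ω₁`)
such that every set `A` of countable ordinals is guessed correctly, `A ∩ d = S d`, for stationarily many `d`. -/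
def Diamond : Prop :=
  ∃ S : Ordinal.{0} → Set Ordinal.{0}, ∀ A C : Set Ordinal.{0}, IsClub C →
    ∃ d ∈ C, A ∩ Set.Iio d = S d

/-- P-points on the natural numbers. -/
def IsPPoint (W : Ultrafilter ℕ) : Prop :=
  (∀ n : ℕ, ({n} : Set ℕ)ᶜ ∈ W) ∧
    ∀ f : ℕ → Set ℕ, (∀ n, f n ∈ W) → ∃ E ∈ W, ∀ n, (E \ f n).Finite

/-- The ultrafilter `U` as a directed set: its members under reverse inclusion. -/
structure Dir {α : Type} (U : Ultrafilter α) where
  /-- the member of the ultrafilter -/
  set : Set α
  /-- it is a member -/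
  mem : set ∈ U

instance {α : Type} (U : Ultrafilter α) : Preorder (Dir U) where
  le A B := B.set ⊆ A.set
  le_refl A := subset_rfl
  le_trans A B C h1 h2 := h2.trans h1

/-- Tukey reducibility `D ≤_T E`: some map `D → E` sends unbounded sets to unbounded sets. -/
def TukeyLE (D E : Type) [Preorder D] [Preorder E] : Prop :=
  ∃ f : D → E, ∀ X : Set D, ¬ BddAbove X → ¬ BddAbove (f '' X)

/-- The Fubini product of two ultrafilters. -/
noncomputable def fubini {α β : Type} (U : Ultrafilter α) (V : Ultrafilter β) : Ultrafilter (α × β) :=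
  U.bind (fun a => V.map (Prod.mk a))

end Pool.Agent.Helper73.TK
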