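import Pool.Agent.Helper73.TK.Kill
import Pool.Agent.TK.PPoint
import Pool.Agent.TK.Dia
import Pool.Agent.TK.Final

set_option autoImplicit false

namespace Pool.Agent.Helper73.TK

open Set Ordinal Cardinal

lemma exists_bound {I : Type*} [Countable I] (f : I → Ordinal.{0}) (hf : ∀ i, f i < ω₁) :
    ∃ b < ω₁, ∀ i, f i ≤ b := by
  refine ⟨⨆ i, f i, Ordinal.iSup_lt_omega_one hf, fun i => ?_⟩
  have : Small.{0} I := Countable.toSmall I
  exact Ordinal.le_iSup f i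

lemma exists_below {d : Ordinal.{0}} (hl : IsLim d) (S : Finset NX) (hS : ∀ ν ∈ S, Below d ν)
    (c : Ordinal.{0}) (hc : c < d) : ∃ γ < d, c < γ ∧ ∀ ν ∈ S, Below γ ν := by
  classical
  induction S using Finset.induction_on with
  | empty => exact ⟨Order.succ c, hl.2 c hc, Order.lt_succ c, by simp⟩
  | @insert ν S _ ih =>
    obtain ⟨γ, h1, h2, h3⟩ := ih (fun ν' h => hS ν' (Finset.mem_insert_of_mem h))
    have hν := hS ν (Finset.mem_insert_self _ _)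
    have : ∃ γ' < d, Below γ' ν := by
      rcases ν with (x | p) | x
      · exact ⟨γ, h1, trivial⟩
      · exact ⟨Order.succ p.1, hl.2 _ hν, Order.lt_succ p.1⟩
      · exact ⟨γ, h1, trivial⟩
    obtain ⟨γ', h4, h5⟩ := this
    refine ⟨max γ γ', max_lt h1 h4, lt_of_lt_of_le h2 (le_max_left _ _), fun ν' h => ?_⟩
    rcases Finset.mem_insert.1 h with rfl | h
    · exact h5.mono (le_max_right _ _)
    · exact (h3 _ h).mono (le_max_left _ _)

theorem core (W : Ultrafilter ℕ) (hW : IsPPoint W) (A : Ordinal.{0} → Set ℕ)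
    (hA : ∀ S : Set ℕ, ∃ x < ω₁, A x = S) (g : Ordinal.{0} → Ordinal.{0} → Gs) (hg : Guess g) :
    ∃ (V : Ultrafilter ℕ) (u : Set.Iio (ω₁ : Ordinal.{0}) → ℕ → ℕ), (∀ n : ℕ, ({n} : Set ℕ)ᶜ ∈ V) ∧
      (∀ ξ k, {x | k ≤ u ξ x} ∈ V) ∧
      ∀ (B : Set.Iio (ω₁ : Ordinal.{0}) → Set ℕ) (C : Set.Iio (ω₁ : Ordinal.{0}) → ℕ → Set ℕ),
        (∀ ξ, B ξ ∈ V) → (∀ ξ n, C ξ n ∈ W) →
        ∃ (k : ℕ) (H : Set (Set.Iio (ω₁ : Ordinal.{0}))), (⋂ ξ ∈ H, B ξ) ∈ V ∧
          (∀ n, (⋂ ξ ∈ H, C ξ n) ∈ W) ∧ {x | ∃ ξ ∈ H, u ξ x ≤ k} ∈ V := by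
  classical
  obtain ⟨Y⟩ := exists_sys W A g
  obtain ⟨V, hV⟩ := Y.exists_V hW hA
  have hdisc := Y.disc hW
  choose! u hu using hdisc
  have h1lt : ∀ ξ : Ordinal.{0}, ξ < ω₁ → Order.succ ξ < ω₁ := fun ξ h => succ_lt_omega1 h
  refine ⟨V, fun ξ => u ξ.1, fun n => ?_, fun ξ k => ?_, ?_⟩
  · -- nonprincipal
    have h0 : (0 : Ordinal.{0}) < ω₁ := Ordinal.omega_pos 1
    refine (hV _).2 ⟨0, h0, fun j => Y.mem_of_cofin hW h0 ?_⟩
    refine (Set.finite_singleton n).subset fun m hm => ?_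
    rw [(Y.ok 0 h0).1 rfl] at hm
    by_contra hne
    apply hm
    show _ ∈ (pure m : Ultrafilter ℕ)
    rw [Ultrafilter.mem_pure]
    exact hne
  · refine (hV _).2 ⟨Order.succ ξ.1, h1lt _ ξ.2, fun j =>
      Y.up hW (z := ξ.1) ?_ _ (Order.lt_succ _) (h1lt _ ξ.2) j⟩
    refine (Set.finite_lt_nat k).subset fun j hj => ?_
    by_contra hlt
    apply hj
    refine Filter.mem_of_superset (hu ξ.1 ξ.2 j) fun x hx => ?_
    show k ≤ u ξ.1 x
    rw [show u ξ.1 x = j from hx]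
    exact not_lt.1 hlt
  · intro B C hB hC
    let B' : Ordinal.{0} → Set ℕ := fun ξ => if h : ξ < ω₁ then B ⟨ξ, h⟩ else Set.univ
    let C' : Ordinal.{0} → ℕ → Set ℕ := fun ξ => if h : ξ < ω₁ then C ⟨ξ, h⟩ else fun _ => Set.univ
    have hB'eq : ∀ ξ (h : ξ < ω₁), B' ξ = B ⟨ξ, h⟩ := fun ξ h => by simp only [B', dif_pos h]
    have hC'eq : ∀ ξ (h : ξ < ω₁), C' ξ = C ⟨ξ, h⟩ := fun ξ h => by simp only [C', dif_pos h]
    have hB' : ∀ ξ < ω₁, B' ξ ∈ V := fun ξ h => by rw [hB'eq ξ h]; exact hB _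
    have hC' : ∀ ξ n, C' ξ n ∈ W := by
      intro ξ n
      by_cases h : ξ < ω₁
      · rw [hC'eq ξ h]; exact hC _ n
      · simp only [C', dif_neg h]; exact Filter.univ_mem
    -- choice of k
    have hk : ∃ k : ℕ, ∀ b < ω₁, ∃ z, b < z ∧ z < ω₁ ∧ B' z ∈ Y.F z k := by
      by_contra hcon
      push Not at hcon
      choose b hb1 hb2 using hcon
      obtain ⟨c, hc1, hc2⟩ := exists_bound b hb1
      obtain ⟨j, hj⟩ := Y.seen hW hV (hB' _ (h1lt c hc1)) (h1lt c hc1)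
      exact hb2 j _ (lt_of_le_of_lt (hc2 j) (Order.lt_succ c)) (h1lt c hc1) hj
    obtain ⟨k, hk⟩ := hk
    -- the function alpha
    have hα : ∀ ξ < ω₁, ∃ x < ω₁, ∀ y, x ≤ y → y < ω₁ → ∀ j, B' ξ ∈ Y.F y j := by
      intro ξ hξ
      obtain ⟨x, hx, h⟩ := (hV _).1 (hB' ξ hξ)
      refine ⟨x, hx, fun y hxy hy j => ?_⟩
      rcases hxy.lt_or_eq with h1 | h1
      · exact Y.up hW (by simp [h]) y h1 hy j
      · rw [← h1]; exact h j
    choose! α hα1 hα2 using hα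
    -- the function G
    let Q : Finset NX → Set Ordinal.{0} := fun S =>
      {z | z < ω₁ ∧ B' z ∈ Y.F z k ∧ ∀ ν ∈ S, ν ∈ TX Y (B' z) (C' z)}
    have hG : ∀ (S : Finset NX) (b : Ordinal.{0}), b < ω₁ → ∃ d < ω₁, (∀ z ∈ Q S, z < d) ∨
        ∀ T ∈ V, ∃ z ∈ Q S, b < z ∧ z < d ∧ T ∈ Y.F z k := by
      intro S b hb
      by_cases h : ∀ c < ω₁, ∃ z ∈ Q S, c < z ∧ z < ω₁
      · obtain ⟨d, hd, _, h2⟩ := Y.mode1 hW hg hV k (Q S) h b hb
        exact ⟨d, hd, Or.inr h2⟩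
      · push Not at h
        obtain ⟨c, hc, h2⟩ := h
        refine ⟨Order.succ c, h1lt c hc, Or.inl fun z hz => ?_⟩
        rw [Order.lt_succ_iff]
        by_contra hlt
        exact absurd hz.1 (not_lt.2 (h2 z hz (not_le.1 hlt)))
    choose! G hG1 hG2 using hG
    have hh : ∀ γ < ω₁, ∃ b < ω₁, α γ ≤ b ∧ ∀ S : Finset NX, (∀ ν ∈ S, Below γ ν) → ∀ c < γ,
        G S c ≤ b := by
      intro γ hγ
      have := countable_below hγ
      have := (countable_Iio hγ).to_subtype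
      obtain ⟨b, hb1, hb2⟩ := exists_bound
        (fun p : Finset {ν : NX // Below γ ν} × Set.Iio γ =>
          G (p.1.image Subtype.val) p.2.1) (fun p => hG1 _ _ (lt_trans p.2.2 hγ))
      refine ⟨max b (α γ), max_lt hb1 (hα1 γ hγ), le_max_right _ _, fun S hS c hc => ?_⟩
      have h2 := hb2 (S.subtype (Below γ), ⟨c, hc⟩)
      have h3 : (S.subtype (Below γ)).image Subtype.val = S := by
        ext ν
        simp only [Finset.mem_image, Finset.mem_subtype, Subtype.exists, exists_and_left,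
          exists_prop, exists_eq_right_right]
        exact ⟨fun h => h.1, fun h => ⟨h, hS ν h⟩⟩
      simp only [h3] at h2
      exact h2.trans (le_max_left _ _)
    choose! hfun hh1 hh2 hh3 using hh
    obtain ⟨d, hd, h0, hsucc, hcl, hguess⟩ := hg (fun ξ => Sum.inr (k, B' ξ, C' ξ)) hfun hh1
    have hl : IsLim d := ⟨h0, hsucc⟩
    have h0d : (0 : Ordinal.{0}) < d := pos_iff_ne_zero.2 h0
    obtain ⟨η, hη1, hη2, hη3⟩ := hk d hd
    obtain ⟨L, hL1, hL2, hL3⟩ := Y.kill hW hd hl k B' C' hC' η α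
      (fun ξ hξ => lt_of_le_of_lt (hh2 ξ (hξ.trans hd)) (hcl ξ hξ))
      (fun ξ hξ => hα2 ξ (hξ.trans hd)) (by
        intro S hS b hb
        obtain ⟨γ, hγ1, hγ2, hγ3⟩ := exists_below hl S (fun ν hν => (hS ν hν).1) b hb
        have hGd : G S b < d := lt_of_le_of_lt (hh3 γ (hγ1.trans hd) S hγ3 b hγ2) (hcl γ hγ1)
        rcases hG2 S b (hb.trans hd) with h | h
        · exfalso
          have := h η ⟨hη2, hη3, fun ν hν => (hS ν hν).2⟩
          exact absurd (this.trans hGd) (not_lt.2 hη1.le)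
        · obtain ⟨z, hz1, hz2, hz3, hz4⟩ := h (B' η) (hB' η hη2)
          exact ⟨z, hz2, hz3.trans hGd, hz1.2.1, hz4, hz1.2.2⟩)
    obtain ⟨k', L', h1, h2, h3⟩ := (Y.ok d hd).2.2 hl
    have h4 := h3 ⟨k, L, hL1, Or.inr ⟨B', C', hguess, hL2, hL3⟩⟩
    have h5 : k' = k ∧ (∀ n, (⋂ l, B' (L' l)) ∈ Y.F (L' n) k) ∧ ∀ n, (⋂ l, C' (L' l) n) ∈ W := by
      rcases h4.2 with ⟨Q', h6, h7⟩ | ⟨B'', C'', h6, h7, h8⟩
      · exact absurd ((hguess 0 h0d).symm.trans (h6 0 h0d)) (by simp)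
      · have h9 : ∀ ξ < d, k' = k ∧ B'' ξ = B' ξ ∧ C'' ξ = C' ξ := by
          intro ξ hξ
          have h10 := Sum.inr.inj ((hguess ξ hξ).symm.trans (h6 ξ hξ))
          have h11 := congrArg Prod.snd h10
          exact ⟨(congrArg Prod.fst h10).symm, (congrArg Prod.fst h11).symm,
            (congrArg Prod.snd h11).symm⟩
        have hk' := (h9 0 h0d).1
        subst hk'
        refine ⟨rfl, fun n => ?_, fun n => ?_⟩
        · have : (⋂ l, B' (L' l)) = ⋂ l, B'' (L' l) := by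
            congr 1; funext l; exact ((h9 _ (h2.2.1 l)).2.1).symm
          rw [this]; exact h7 n
        · have : (⋂ l, C' (L' l) n) = ⋂ l, C'' (L' l) n := by
            congr 1; funext l; rw [(h9 _ (h2.2.1 l)).2.2]
          rw [this]; exact h8 n
    obtain ⟨rfl, h6, h7⟩ := h5
    have hinV : ∀ T : Set ℕ, (∀ n, T ∈ Y.F (L' n) k') → T ∈ V := by
      intro T hT
      refine (hV _).2 ⟨d, hd, fun i => Y.mem_of_cofin hW hd ?_⟩
      have : {n | T ∉ val Y.F (Y.N d n)} = ∅ := by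
        refine Set.eq_empty_of_forall_notMem fun n hn => hn ?_
        rw [h1 n]; exact hT n
      rw [this]; exact Set.finite_empty
    refine ⟨k', {ξ | ∃ l, ξ.1 = L' l}, ?_, fun n => ?_, ?_⟩
    · refine Filter.mem_of_superset (hinV _ h6) fun x hx => ?_
      rw [Set.mem_iInter₂]
      rintro ⟨ξ, hξ⟩ ⟨l, hl'⟩
      have h8 := Set.mem_iInter.1 hx l
      have h9 : ξ = L' l := hl'
      subst h9
      rwa [hB'eq _ hξ] at h8
    · refine Filter.mem_of_superset (h7 n) fun x hx => ?_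
      rw [Set.mem_iInter₂]
      rintro ⟨ξ, hξ⟩ ⟨l, hl'⟩
      have h8 := Set.mem_iInter.1 hx l
      have h9 : ξ = L' l := hl'
      subst h9
      rwa [hC'eq _ hξ] at h8
    · refine hinV _ fun n => ?_
      have hlt : L' n < ω₁ := (h2.2.1 n).trans hd
      refine Filter.mem_of_superset (hu (L' n) hlt k') fun x hx => ?_
      exact ⟨⟨L' n, hlt⟩, ⟨n, rfl⟩, le_of_eq hx⟩

theorem main (hD : Diamond) :
    ∃ U : Ultrafilter ℕ, TukeyLE (ℕ → ℕ) (Dir U) ∧ TukeyLE (Dir U) (Dir (fubini U U)) ∧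
      ¬ TukeyLE (Dir (fubini U U)) (Dir U) := by
  have hCH := diamond_ch hD
  obtain ⟨W, hW⟩ := exists_ppoint hCH
  have hGs : #Gs ≤ aleph 1 := by
    refine le_trans ?_ hCH
    have h1 : #(Set ℕ) = continuum := by simp
    have h2 : #(ℕ → Set ℕ) = continuum := by simp
    have h3 : #(ℕ × Prop) ≤ continuum :=
      le_trans Cardinal.mk_le_aleph0 aleph0_le_continuum
    have h4 : #(ℕ × Set ℕ × (ℕ → Set ℕ)) ≤ continuum := by
      rw [mk_prod, mk_prod, h1, h2]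
      simp
    rw [mk_sum]
    refine (add_le_add (Cardinal.lift_le.2 h3) (Cardinal.lift_le.2 h4)).trans ?_
    simp
  obtain ⟨g, hg⟩ := diamond_fun hGs hD
  have hA : ∃ A : Ordinal.{0} → Set ℕ, ∀ S : Set ℕ, ∃ x < ω₁, A x = S := by
    have h1 : Cardinal.lift.{1, 0} #(Set ℕ) ≤
        Cardinal.lift.{0, 1} #(Set.Iio (ω₁ : Ordinal.{0})) := by
      rw [Cardinal.mk_Iio_ordinal, Cardinal.lift_lift]
      refine Cardinal.lift_le.2 ?_
      rw [← Cardinal.ord_aleph, Cardinal.card_ord]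
      exact le_trans (by simp) hCH
    obtain ⟨f⟩ := Cardinal.lift_mk_le'.1 h1
    refine ⟨fun x => Function.invFun (fun S => (f S : Ordinal.{0})) x, fun S =>
      ⟨(f S : Ordinal.{0}), (f S).2, ?_⟩⟩
    exact Function.leftInverse_invFun
      (f := fun S => (f S : Ordinal.{0})) (fun a b hab => f.injective (Subtype.ext hab)) S
  obtain ⟨A, hA⟩ := hA
  obtain ⟨V, u, h1, h2, h3⟩ := core W hW A hA g hg
  exact final V W h1 hW.1 u h2 h3

end Pool.Agent.Helper73.TK
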