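import Pool.Agent.Helper73.TK.Defs

set_option autoImplicit false

namespace Pool.Agent.Helper73.TK

open Set Ordinal Cardinal

lemma fu_cofin {W : Ultrafilter ℕ} (hW : IsPPoint W) {S : Set ℕ} (hS : S.Finite) : Sᶜ ∈ W := by
  induction S, hS using Set.Finite.induction_on with
  | empty => rw [Set.compl_empty]; exact Filter.univ_mem
  | @insert a s _ _ ih =>
    have : (insert a s)ᶜ = {a}ᶜ ∩ sᶜ := by
      rw [← Set.compl_union]; rfl
    rw [this]
    exact Filter.inter_mem (hW.1 a) ih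

/-- P-points catch countable families -/
lemma fu_ppoint {W : Ultrafilter ℕ} (hW : IsPPoint W) {J : Type*} [Countable J] (f : J → Set ℕ)
    (hf : ∀ j, f j ∈ W) : ∃ E ∈ W, ∀ j, (E \ f j).Finite := by
  classical
  cases isEmpty_or_nonempty J with
  | inl h => exact ⟨Set.univ, Filter.univ_mem, fun j => (h.false j).elim⟩
  | inr h =>
    obtain ⟨e, he⟩ := exists_surjective_nat J
    obtain ⟨E, hE, h2⟩ := hW.2 (fun n => f (e n)) (fun n => hf _)
    refine ⟨E, hE, fun j => ?_⟩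
    obtain ⟨n, rfl⟩ := he j
    exact h2 n

theorem ppoint_game {W : Ultrafilter ℕ} (hW : IsPPoint W) (σ : List (Finset ℕ) → Set ℕ)
    (hσ : ∀ p, σ p ∈ W) :
    ∃ I : ℕ → Finset ℕ,
      (∀ l, (↑(I l) : Set ℕ) ⊆ σ ((List.ofFn (fun i : Fin l => I i)).reverse)) ∧
      (⋃ l, (↑(I l) : Set ℕ)) ∈ W := by
  classical
  obtain ⟨E, hE, hfin⟩ := fu_ppoint hW σ hσ
  -- bounds
  have hb : ∀ p, ∃ b : ℕ, ∀ m ∈ E, b ≤ m → m ∈ σ p := by
    intro p
    obtain ⟨b, hb⟩ := (hfin p).bddAbove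
    refine ⟨b + 1, fun m hm hbm => ?_⟩
    by_contra hcon
    exact absurd (hb ⟨hm, hcon⟩) (by omega)
  choose b hb using hb
  have hB : ∀ n : ℕ, ∃ B : ℕ, ∀ p : List (Finset ℕ), p.length ≤ n →
      (∀ s ∈ p, s ⊆ Finset.range n) → b p ≤ B := by
    intro n
    have h1 : {p : List (Finset ℕ) | p.length ≤ n ∧ ∀ s ∈ p, s ⊆ Finset.range n}.Finite := by
      have h2 := List.finite_length_le {s : Finset ℕ // s ⊆ Finset.range n} n
      refine (h2.image (fun p => p.map Subtype.val)).subset ?_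
      rintro p ⟨hp1, hp2⟩
      refine ⟨p.attach.map (fun s => ⟨s.1, hp2 _ s.2⟩), ?_, ?_⟩
      · show (p.attach.map _).length ≤ n
        rw [List.length_map, List.length_attach]; exact hp1
      · show List.map Subtype.val (p.attach.map _) = p
        rw [List.map_map]
        exact List.attach_map_subtype_val p
    obtain ⟨B, hB⟩ := (h1.image b).bddAbove
    exact ⟨B, fun p hp1 hp2 => hB ⟨p, ⟨hp1, hp2⟩, rfl⟩⟩
  choose B hB using hB
  let v : ℕ → ℕ := fun n => Nat.rec (B 0) (fun _ r => max (r + 1) (B r)) n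
  have hv : ∀ n, v (n + 1) = max (v n + 1) (B (v n)) := fun n => rfl
  have hmono : StrictMono v := strictMono_nat_of_lt_succ fun n => by rw [hv]; omega
  have hid : ∀ n, n ≤ v n := fun n => hmono.le_apply
  have hmn : ∀ a c : ℕ, a ≤ c → v a ≤ v c := fun a c h => hmono.monotone h
  -- the blocks
  let K : ℕ → ℕ → Finset ℕ := fun e l =>
    (Finset.Ico (v (2 * l + e)) (v (2 * l + e + 1))).filter (· ∈ E)
  have hplay : ∀ e l, (↑(K e l) : Set ℕ) ⊆ σ ((List.ofFn (fun i : Fin l => K e i)).reverse) := by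
    intro e l m hm
    have hm' := Finset.mem_filter.1 (Finset.mem_coe.1 hm)
    refine hb _ m hm'.2 ?_
    have hm1 := (Finset.mem_Ico.1 hm'.1).1
    rcases Nat.eq_zero_or_pos l with rfl | hl
    · have h0 : b ((List.ofFn (fun i : Fin 0 => K e i)).reverse) ≤ B 0 := by
        apply hB 0
        · simp
        · intro s hs; simp at hs
      have : v 0 ≤ v (2 * 0 + e) := hmn 0 (2 * 0 + e) (Nat.zero_le _)
      have hv0 : v 0 = B 0 := rfl
      omega
    · obtain ⟨l', rfl⟩ : ∃ l', l = l' + 1 := ⟨l - 1, by omega⟩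
      have h1 : b ((List.ofFn (fun i : Fin (l' + 1) => K e i)).reverse) ≤ B (v (2 * l' + e + 1)) := by
        apply hB
        · rw [List.length_reverse, List.length_ofFn]
          have := hid (2 * l' + e + 1)
          omega
        · intro s hs
          rw [List.mem_reverse, List.mem_ofFn] at hs
          obtain ⟨i, rfl⟩ := hs
          intro x hx
          have hx' := (Finset.mem_Ico.1 (Finset.mem_filter.1 hx).1).2
          rw [Finset.mem_range]
          have hi : 2 * (i : ℕ) + e + 1 ≤ 2 * l' + e + 1 := by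
            have := i.2
            omega
          exact hx'.trans_le (hmn _ _ hi)
      have h2 : B (v (2 * l' + e + 1)) ≤ v (2 * l' + e + 1 + 1) := by
        rw [hv]; exact le_max_right _ _
      have h3' : 2 * l' + e + 1 + 1 ≤ 2 * (l' + 1) + e := by omega
      have h3 : v (2 * l' + e + 1 + 1) ≤ v (2 * (l' + 1) + e) := hmn _ _ h3'
      omega
  have hcov : E \ {m | m < v 0} ⊆ (⋃ l, (↑(K 0 l) : Set ℕ)) ∪ (⋃ l, (↑(K 1 l) : Set ℕ)) := by
    rintro m ⟨hm, hm0⟩
    have hm0' : v 0 ≤ m := not_lt.1 hm0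
    -- greatest n with v n ≤ m
    have hex : ∃ n, m < v (n + 1) := ⟨m, lt_of_lt_of_le (Nat.lt_succ_self m) (hid (m + 1))⟩
    let n := Nat.find hex
    have hn1 : m < v (n + 1) := Nat.find_spec hex
    have hn2 : v n ≤ m := by
      rcases Nat.eq_zero_or_pos n with h | h
      · rw [h]; exact hm0'
      · refine not_lt.1 fun hlt => ?_
        have h3 : n - 1 < Nat.find hex := by
          show n - 1 < n
          omega
        apply Nat.find_min hex h3
        rw [Nat.sub_add_cancel h]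
        exact hlt
    rcases Nat.even_or_odd' n with ⟨l, hl | hl⟩
    · left
      rw [Set.mem_iUnion]
      refine ⟨l, Finset.mem_coe.2 (Finset.mem_filter.2 ⟨Finset.mem_Ico.2 ⟨?_, ?_⟩, hm⟩)⟩
      · show v (2 * l + 0) ≤ m
        rw [Nat.add_zero, ← hl]; exact hn2
      · show m < v (2 * l + 0 + 1)
        rw [Nat.add_zero, ← hl]; exact hn1
    · right
      rw [Set.mem_iUnion]
      refine ⟨l, Finset.mem_coe.2 (Finset.mem_filter.2 ⟨Finset.mem_Ico.2 ⟨?_, ?_⟩, hm⟩)⟩
      · show v (2 * l + 1) ≤ m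
        rw [← hl]; exact hn2
      · show m < v (2 * l + 1 + 1)
        rw [← hl]; exact hn1
  have hmem : E \ {m | m < v 0} ∈ W := Filter.inter_mem hE (fu_cofin hW (Set.finite_lt_nat _))
  have hun := Filter.mem_of_superset hmem hcov
  rcases Ultrafilter.union_mem_iff.1 hun with h | h
  · exact ⟨K 0, hplay 0, h⟩
  · exact ⟨K 1, hplay 1, h⟩

/-- the fusion lemma -/
theorem fusion {W : Ultrafilter ℕ} (hW : IsPPoint W) {N Idx : Type*} [Countable N] (inner : Set N)
    (ch : N → ℕ → N) (Θ : Idx → Set N) (Θs : Set N)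
    (hΘ : ∀ ξ, ∀ ν ∈ Θ ξ, ν ∈ inner → {m | ch ν m ∈ Θ ξ} ∈ W)
    (hΘs : ∀ ν ∈ Θs, ν ∈ inner → {m | ch ν m ∈ Θs} ∈ W)
    (new : ℕ → Idx → Finset N) (P : List Idx → Idx → Prop)
    (hnext : ∀ (R : List Idx) (S : Finset N), (↑S : Set N) ⊆ Θs → (∀ ζ ∈ R, (↑S : Set N) ⊆ Θ ζ) →
      ∃ ξ, P R ξ ∧ (↑S : Set N) ⊆ Θ ξ ∧ (↑(new R.length ξ) : Set N) ⊆ Θs ∧
        (↑(new R.length ξ) : Set N) ⊆ Θ ξ ∧ ∀ ζ ∈ R, (↑(new R.length ξ) : Set N) ⊆ Θ ζ) :
    ∃ (z : ℕ → Idx) (S : Set N),
      (∀ l, P ((List.ofFn (fun i : Fin l => z i)).reverse) (z l)) ∧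
      (∀ l, S ⊆ Θ (z l)) ∧
      (∀ l, (↑(new l (z l)) : Set N) ⊆ S) ∧
      (∀ ν ∈ S, ν ∈ inner → {m | ch ν m ∈ S} ∈ W) := by
  classical
  obtain ⟨ξ0, _⟩ := hnext [] ∅ (by simp) (by simp)
  -- the next index
  let Okk : List Idx → Finset N → Prop := fun R S =>
    (↑S : Set N) ⊆ Θs ∧ ∀ ζ ∈ R, (↑S : Set N) ⊆ Θ ζ
  let nx : List Idx → Finset N → Idx := fun R S =>
    if h : Okk R S then Classical.choose (hnext R S h.1 h.2) else ξ0
  have hnx : ∀ R S, Okk R S → P R (nx R S) ∧ (↑S : Set N) ⊆ Θ (nx R S) ∧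
      (↑(new R.length (nx R S)) : Set N) ⊆ Θs ∧
        (↑(new R.length (nx R S)) : Set N) ⊆ Θ (nx R S) ∧
        ∀ ζ ∈ R, (↑(new R.length (nx R S)) : Set N) ⊆ Θ ζ := by
    intro R S h
    simp only [nx, dif_pos h]
    exact Classical.choose_spec (hnext R S h.1 h.2)
  -- allowed nodes after the move
  let al : List Idx → Set N := fun R => {ν | ν ∈ Θs ∧ ∀ ζ ∈ R, ν ∈ Θ ζ}
  let st : List (Finset ℕ) → List Idx × Finset N := fun p =>
    List.rec (([] : List Idx), (∅ : Finset N)) (fun I _ r =>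
      (nx r.1 r.2 :: r.1, (r.2 ∪ new r.1.length (nx r.1 r.2)) ∪
        (((r.2.filter (· ∈ inner)) ×ˢ I).image (fun q => ch q.1 q.2)).filter
          (· ∈ al (nx r.1 r.2 :: r.1)))) p
  have hst0 : st [] = ([], ∅) := rfl
  have hst : ∀ I p, st (I :: p) = (nx (st p).1 (st p).2 :: (st p).1,
      ((st p).2 ∪ new (st p).1.length (nx (st p).1 (st p).2)) ∪
        ((((st p).2.filter (· ∈ inner)) ×ˢ I).image (fun q => ch q.1 q.2)).filter
          (· ∈ al (nx (st p).1 (st p).2 :: (st p).1))) := fun I p => rfl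
  have hlen : ∀ p, (st p).1.length = p.length := by
    intro p
    induction p with
    | nil => rfl
    | cons I p ih => rw [hst]; simp [ih]
  have hok : ∀ p, Okk (st p).1 (st p).2 := by
    intro p
    induction p with
    | nil => rw [hst0]; exact ⟨by simp, by simp⟩
    | cons I p ih =>
      obtain ⟨h1, h2, h3, h4, h5⟩ := hnx _ _ ih
      rw [hst]
      have key : ∀ ν ∈ ((st p).2 ∪ new (st p).1.length (nx (st p).1 (st p).2)) ∪
        ((((st p).2.filter (· ∈ inner)) ×ˢ I).image (fun q => ch q.1 q.2)).filter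
          (· ∈ al (nx (st p).1 (st p).2 :: (st p).1)),
          ν ∈ al (nx (st p).1 (st p).2 :: (st p).1) := by
        intro ν hν
        rcases Finset.mem_union.1 hν with hν | hν
        · rcases Finset.mem_union.1 hν with hν | hν
          · refine ⟨ih.1 hν, fun ζ hζ => ?_⟩
            rcases List.mem_cons.1 hζ with rfl | hζ
            · exact h2 hν
            · exact ih.2 ζ hζ hν
          · refine ⟨h3 hν, fun ζ hζ => ?_⟩
            rcases List.mem_cons.1 hζ with rfl | hζ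
            · exact h4 hν
            · exact h5 ζ hζ hν
        · exact (Finset.mem_filter.1 hν).2
      exact ⟨fun ν hν => (key ν hν).1, fun ζ hζ ν hν => (key ν hν).2 ζ hζ⟩
  -- the strategy
  let σ : List (Finset ℕ) → Set ℕ := fun p =>
    ⋂ ν ∈ ((st p).2.filter (· ∈ inner) : Finset N),
      {m | ch ν m ∈ al (nx (st p).1 (st p).2 :: (st p).1)}
  have hσ : ∀ p, σ p ∈ W := by
    intro p
    refine (Filter.biInter_finset_mem _).2 fun ν hν => ?_
    obtain ⟨h1, h2⟩ := Finset.mem_filter.1 hν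
    obtain ⟨h3, h4⟩ := hok p
    obtain ⟨_, h5, _⟩ := hnx _ _ (hok p)
    have h6 : ∀ R : List Idx, (∀ ζ ∈ R, ν ∈ Θ ζ) → {m | ch ν m ∈ al R} ∈ W := by
      intro R
      induction R with
      | nil =>
        intro _
        refine Filter.mem_of_superset (hΘs ν (h3 h1) h2) fun m hm => ⟨hm, by simp⟩
      | cons ζ R ih =>
        intro hR
        have h7 := ih (fun ζ' h' => hR ζ' (List.mem_cons_of_mem _ h'))
        have h8 := hΘ ζ ν (hR ζ List.mem_cons_self) h2
        refine Filter.mem_of_superset (Filter.inter_mem h7 h8) fun m hm => ⟨hm.1.1, fun ζ' hζ' => ?_⟩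
        rcases List.mem_cons.1 hζ' with rfl | h'
        · exact hm.2
        · exact hm.1.2 ζ' h'
    refine h6 _ fun ζ hζ => ?_
    rcases List.mem_cons.1 hζ with rfl | hζ
    · exact h5 h1
    · exact h4 ζ hζ h1
  obtain ⟨I, hI1, hI2⟩ := ppoint_game hW σ hσ
  let p : ℕ → List (Finset ℕ) := fun l => (List.ofFn (fun i : Fin l => I i)).reverse
  have hp : ∀ l, p (l + 1) = I l :: p l := by
    intro l
    show (List.ofFn (fun i : Fin (l + 1) => I i)).reverse = _
    rw [List.ofFn_succ', List.concat_eq_append, List.reverse_append]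
    rfl
  have hpl : ∀ l, (p l).length = l := fun l => by
    show ((List.ofFn (fun i : Fin l => I i)).reverse).length = l
    rw [List.length_reverse, List.length_ofFn]
  let z : ℕ → Idx := fun l => nx (st (p l)).1 (st (p l)).2
  have hR : ∀ l, (st (p l)).1 = (List.ofFn (fun i : Fin l => z i)).reverse := by
    intro l
    induction l with
    | zero => rfl
    | succ l ih =>
      rw [hp, hst, List.ofFn_succ', List.concat_eq_append, List.reverse_append]
      show z l :: (st (p l)).1 = _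
      rw [ih]; rfl
  have hmono : ∀ l, (st (p l)).2 ⊆ (st (p (l + 1))).2 := by
    intro l ν hν
    rw [hp, hst]
    exact Finset.mem_union_left _ (Finset.mem_union_left _ hν)
  have hmono' : ∀ l l', l ≤ l' → (st (p l)).2 ⊆ (st (p l')).2 := fun l l' h =>
    monotone_nat_of_le_succ (f := fun l => (st (p l)).2) hmono h
  refine ⟨z, ⋃ l, (↑((st (p l)).2) : Set N), fun l => ?_, fun l => ?_, fun l => ?_, ?_⟩
  · rw [← hR]; exact (hnx _ _ (hok (p l))).1
  · intro ν hν
    obtain ⟨l', hl'⟩ := Set.mem_iUnion.1 hν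
    have h1 : ν ∈ (st (p (max l' (l + 1)))).2 := hmono' _ _ (le_max_left _ _) hl'
    have h2 : z l ∈ (st (p (max l' (l + 1)))).1 := by
      rw [hR, List.mem_reverse, List.mem_ofFn]
      exact ⟨⟨l, lt_of_lt_of_le (Nat.lt_succ_self l) (le_max_right _ _)⟩, rfl⟩
    exact (hok _).2 _ h2 h1
  · intro ν hν
    rw [Set.mem_iUnion]
    refine ⟨l + 1, ?_⟩
    rw [hp, hst]
    refine Finset.mem_coe.2 (Finset.mem_union_left _ (Finset.mem_union_right _ ?_))
    rw [hlen, hpl]
    exact hν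
  · intro ν hν hi
    obtain ⟨l, hl⟩ := Set.mem_iUnion.1 hν
    have h1 : (⋃ l' ∈ Set.Iio l, (↑(I l') : Set ℕ)).Finite :=
      Set.Finite.biUnion (Set.finite_Iio l) fun _ _ => Finset.finite_toSet _
    refine Filter.mem_of_superset (Filter.inter_mem hI2 (fu_cofin hW h1)) ?_
    rintro m ⟨hm1, hm2⟩
    obtain ⟨l', hl'⟩ := Set.mem_iUnion.1 hm1
    have hle : l ≤ l' := by
      by_contra hlt
      exact hm2 (Set.mem_iUnion₂.2 ⟨l', not_le.1 hlt, hl'⟩)
    have h2 : ν ∈ (st (p l')).2.filter (· ∈ inner) :=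
      Finset.mem_filter.2 ⟨hmono' _ _ hle hl, hi⟩
    have h3 := Set.mem_iInter₂.1 (hI1 l' hl') ν h2
    rw [Set.mem_ofPred_eq, Set.mem_iUnion]
    refine ⟨l' + 1, ?_⟩
    rw [hp, hst]
    refine Finset.mem_coe.2 (Finset.mem_union_right _ (Finset.mem_filter.2 ⟨?_, h3⟩))
    exact Finset.mem_image.2 ⟨(ν, m), Finset.mem_product.2 ⟨h2, hl'⟩, rfl⟩

end Pool.Agent.Helper73.TK
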