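import Pool.Agent.Helper73.TK.Rec

set_option autoImplicit false

namespace Pool.Agent.Helper73.TK

open Set Ordinal Cardinal

lemma mem_ubind {W : Ultrafilter ℕ} {f : ℕ → Ultrafilter ℕ} {S : Set ℕ} :
    S ∈ Ultrafilter.bind W f ↔ {m | S ∈ f m} ∈ W := Iff.rfl

lemma cofin_mem {W : Ultrafilter ℕ} (hW : IsPPoint W) {S : Set ℕ} (hS : Sᶜ.Finite) : S ∈ W := by
  have h1 : ∀ T : Set ℕ, T.Finite → Tᶜ ∈ W := by
    intro T hT
    induction T, hT using Set.Finite.induction_on with
    | empty => rw [Set.compl_empty]; exact Filter.univ_mem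
    | @insert a s _ _ ih =>
      have : (insert a s)ᶜ = {a}ᶜ ∩ sᶜ := by
        rw [← Set.compl_union]; rfl
      rw [this]
      exact Filter.inter_mem (hW.1 a) ih
  have := h1 _ hS
  rwa [compl_compl] at this

/-- the data of the recursion -/
structure Sys (W : Ultrafilter ℕ) (A : Ordinal.{0} → Set ℕ) (g : Ordinal.{0} → Ordinal.{0} → Gs) where
  /-- the ultrafilters -/
  F : Ordinal.{0} → ℕ → Ultrafilter ℕ
  /-- the nodes -/
  N : Ordinal.{0} → ℕ → Node
  ok : ∀ d < ω₁, Ok W A g d F (N d)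
  eq : ∀ d < ω₁, ∀ i, F d i = Ultrafilter.bind W (fun m => val F (N d (Nat.pair i m)))

variable {W : Ultrafilter ℕ} {A : Ordinal.{0} → Set ℕ} {g : Ordinal.{0} → Ordinal.{0} → Gs}

lemma exists_sys (W : Ultrafilter ℕ) (A : Ordinal.{0} → Set ℕ)
    (g : Ordinal.{0} → Ordinal.{0} → Gs) : Nonempty (Sys W A g) := by
  obtain ⟨F, N, h⟩ := exists_fam W A g
  exact ⟨⟨F, N, fun d hd => (h d hd).1, fun d hd => (h d hd).2⟩⟩

lemma Sys.mem_iff (Y : Sys W A g) {d : Ordinal.{0}} (hd : d < ω₁) {i : ℕ} {S : Set ℕ} :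
    S ∈ Y.F d i ↔ {m | S ∈ val Y.F (Y.N d (Nat.pair i m))} ∈ W := by
  rw [Y.eq d hd i]; exact mem_ubind

lemma Sys.mem_of_cofin (Y : Sys W A g) (hW : IsPPoint W) {d : Ordinal.{0}} (hd : d < ω₁) {i : ℕ}
    {S : Set ℕ} (h : {n | S ∉ val Y.F (Y.N d n)}.Finite) : S ∈ Y.F d i := by
  rw [Y.mem_iff hd]
  apply cofin_mem hW
  have : {m | S ∈ val Y.F (Y.N d (Nat.pair i m))}ᶜ =
      (Nat.pair i) ⁻¹' {n | S ∉ val Y.F (Y.N d n)} := rfl
  rw [this]
  exact h.preimage (fun a _ b _ hab => (Nat.pair_eq_pair.1 hab).2)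

/-- sets which are in almost all `F z j` are in all later `F d i` -/
lemma Sys.up (Y : Sys W A g) (hW : IsPPoint W) {S : Set ℕ} {z : Ordinal.{0}}
    (h : {j | S ∉ Y.F z j}.Finite) :
    ∀ d, z < d → d < ω₁ → ∀ i, S ∈ Y.F d i := by
  intro d
  induction d using Ordinal.induction with
  | h d ih =>
    intro hzd hd i
    apply Y.mem_of_cofin hW hd
    rcases trich d with h0 | ⟨e, he⟩ | hl
    · exact absurd hzd (by rw [h0]; exact not_lt_bot)
    · obtain ⟨J, hJ1, hJ2, _⟩ := (Y.ok d hd).2.1 e he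
      have hze : z ≤ e := Order.lt_succ_iff.1 (he ▸ hzd)
      have hed : e < d := he ▸ Order.lt_succ e
      rcases hze.lt_or_eq with h1 | h1
      · have : {n | S ∉ val Y.F (Y.N d n)} = ∅ := by
          ext n
          simp only [Set.mem_setOf_eq, Set.mem_empty_iff_false, iff_false, not_not]
          rw [hJ2 n]
          exact ih e hed h1 (hed.trans hd) (J n)
        rw [this]; exact Set.finite_empty
      · have : {n | S ∉ val Y.F (Y.N d n)} = J ⁻¹' {j | S ∉ Y.F z j} := by
          ext n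
          simp only [Set.mem_setOf_eq, Set.mem_preimage]
          rw [hJ2 n, h1]
          exact Iff.rfl
        rw [this]
        exact h.preimage hJ1.injOn
    · obtain ⟨k, L, hL1, hL2, _⟩ := (Y.ok d hd).2.2 hl
      obtain ⟨n0, hn0⟩ := hL2.2.2 z hzd
      refine (Set.finite_lt_nat n0).subset fun n hn => ?_
      by_contra hlt
      have hle : n0 ≤ n := not_lt.1 hlt
      apply hn
      rw [hL1 n]
      exact ih (L n) (hL2.2.1 n) (hn0.trans_le (hL2.1.monotone hle)) ((hL2.2.1 n).trans hd) k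

/-- the sequences are discrete -/
lemma Sys.disc (Y : Sys W A g) (hW : IsPPoint W) :
    ∀ d, d < ω₁ → ∃ u : ℕ → ℕ, ∀ i, {x | u x = i} ∈ Y.F d i := by
  classical
  intro d
  induction d using Ordinal.induction with
  | h d ih =>
    intro hd
    have key : ∃ v : ℕ → ℕ, ∀ n, {x | v x = n} ∈ val Y.F (Y.N d n) := by
      rcases trich d with h0 | ⟨e, he⟩ | hl
      · refine ⟨id, fun n => ?_⟩
        rw [(Y.ok d hd).1 h0]
        show _ ∈ (pure n : Ultrafilter ℕ)
        rw [Ultrafilter.mem_pure]; rfl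
      · obtain ⟨J, hJ1, hJ2, _⟩ := (Y.ok d hd).2.1 e he
        have hed : e < d := he ▸ Order.lt_succ e
        obtain ⟨u, hu⟩ := ih e hed (hed.trans hd)
        refine ⟨fun x => Function.invFun J (u x), fun n => ?_⟩
        rw [hJ2 n]
        refine Filter.mem_of_superset (hu (J n)) fun x hx => ?_
        show Function.invFun J (u x) = n
        rw [show u x = J n from hx]
        exact Function.leftInverse_invFun hJ1 n
      · obtain ⟨k, L, hL1, hL2, _⟩ := (Y.ok d hd).2.2 hl
        have hex : ∀ n, ∃ u : ℕ → ℕ, ∀ i, {x | u x = i} ∈ Y.F (L n) i := fun n =>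
          ih (L n) (hL2.2.1 n) ((hL2.2.1 n).trans hd)
        choose u hu using hex
        refine ⟨fun x => sInf {n | u n x = k}, fun n => ?_⟩
        rw [hL1 n]
        have h1 : ∀ m < n, {x | u m x ≠ k} ∈ Y.F (L n) k := by
          intro m hm
          refine Y.up hW ?_ (L n) (hL2.1 hm) ((hL2.2.1 n).trans hd) k
          refine (Set.finite_singleton k).subset fun j hj => ?_
          by_contra hjk
          apply hj
          refine Filter.mem_of_superset (hu m j) fun x hx => ?_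
          show u m x ≠ k
          rw [show u m x = j from hx]
          exact hjk
        have h2 : (⋂ m ∈ Set.Iio n, {x | u m x ≠ k}) ∈ (Y.F (L n) k : Filter ℕ) :=
          (Filter.biInter_mem (Set.finite_Iio n)).2 h1
        refine Filter.mem_of_superset (Filter.inter_mem (hu n k) h2) fun x hx => ?_
        have h3 : n ∈ {n | u n x = k} := hx.1
        show sInf {n | u n x = k} = n
        refine le_antisymm (Nat.sInf_le h3) ?_
        by_contra hlt
        have hlt' := not_le.1 hlt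
        have h4 : sInf {n | u n x = k} ∈ {n | u n x = k} := Nat.sInf_mem ⟨n, h3⟩
        exact (Set.mem_iInter₂.1 hx.2 _ hlt') h4
    obtain ⟨v, hv⟩ := key
    refine ⟨fun x => (Nat.unpair (v x)).1, fun i => ?_⟩
    rw [Y.mem_iff hd]
    refine Filter.mem_of_superset Filter.univ_mem fun m _ => ?_
    refine Filter.mem_of_superset (hv (Nat.pair i m)) fun x hx => ?_
    show (Nat.unpair (v x)).1 = i
    rw [show v x = Nat.pair i m from hx, Nat.unpair_pair]

lemma succ_lt_omega1 {a : Ordinal.{0}} (ha : a < ω₁) : Order.succ a < ω₁ :=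
  (Cardinal.isSuccLimit_omega 1).succ_lt ha

/-- the limit ultrafilter -/
lemma Sys.exists_V (Y : Sys W A g) (hW : IsPPoint W) (hA : ∀ S : Set ℕ, ∃ x < ω₁, A x = S) :
    ∃ V : Ultrafilter ℕ, ∀ S, S ∈ V ↔ ∃ x < ω₁, ∀ j, S ∈ Y.F x j := by
  have hup : ∀ {S : Set ℕ} {x : Ordinal.{0}}, (∀ j, S ∈ Y.F x j) → ∀ y, x ≤ y → y < ω₁ →
      ∀ j, S ∈ Y.F y j := by
    intro S x h y hxy hy j
    rcases hxy.lt_or_eq with h1 | h1
    · exact Y.up hW (by simp [h]) y h1 hy j
    · rw [← h1]; exact h j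
  let f : Filter ℕ :=
    { sets := {S | ∃ x < ω₁, ∀ j, S ∈ Y.F x j}
      univ_sets := ⟨0, Ordinal.omega_pos 1, fun j => Filter.univ_mem⟩
      sets_of_superset := by
        rintro S T ⟨x, hx, h⟩ hST
        exact ⟨x, hx, fun j => Filter.mem_of_superset (h j) hST⟩
      inter_sets := by
        rintro S T ⟨x, hx, h⟩ ⟨y, hy, h'⟩
        refine ⟨max x y, max_lt hx hy, fun j => ?_⟩
        exact Filter.inter_mem (hup h _ (le_max_left _ _) (max_lt hx hy) j)
          (hup h' _ (le_max_right _ _) (max_lt hx hy) j) }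
  have hf : ∀ S, S ∈ f ↔ ∃ x < ω₁, ∀ j, S ∈ Y.F x j := fun S => Iff.rfl
  refine ⟨Ultrafilter.ofComplNotMemIff f fun S => ?_, fun S => Iff.rfl⟩
  rw [hf, hf]
  constructor
  · intro hn
    obtain ⟨x, hx, rfl⟩ := hA S
    have hsx := succ_lt_omega1 hx
    obtain ⟨J, hJ1, hJ2, hJ3⟩ := (Y.ok _ hsx).2.1 x rfl
    rcases hJ3 with h | h
    · refine ⟨_, hsx, fun i => Y.mem_of_cofin hW hsx ?_⟩
      have : {n | A x ∉ val Y.F (Y.N (Order.succ x) n)} = ∅ := by
        ext n
        simp only [Set.mem_setOf_eq, Set.mem_empty_iff_false, iff_false, not_not]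
        rw [hJ2 n]; exact h n
      rw [this]; exact Set.finite_empty
    · exfalso
      apply hn
      refine ⟨_, hsx, fun i => Y.mem_of_cofin hW hsx ?_⟩
      have : {n | (A x)ᶜ ∉ val Y.F (Y.N (Order.succ x) n)} = ∅ := by
        ext n
        simp only [Set.mem_setOf_eq, Set.mem_empty_iff_false, iff_false, not_not]
        rw [hJ2 n]; exact h n
      rw [this]; exact Set.finite_empty
  · rintro ⟨x, hx, h⟩ ⟨y, hy, h'⟩
    have h1 := hup h _ (le_max_left x y) (max_lt hx hy) 0
    have h2 := hup h' _ (le_max_right x y) (max_lt hx hy) 0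
    exact (Ultrafilter.compl_mem_iff_notMem.1 h2) h1

end Pool.Agent.Helper73.TK
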