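import Pool.Agent.Helper73.TK.Inv
import Pool.Agent.Helper73.TK.Fusion

set_option autoImplicit false

namespace Pool.Agent.Helper73.TK

open Set Ordinal Cardinal

variable {W : Ultrafilter ℕ} {A : Ordinal.{0} → Set ℕ} {g : Ordinal.{0} → Ordinal.{0} → Gs}

/-- the guessing property used in the construction -/
def Guess (g : Ordinal.{0} → Ordinal.{0} → Gs) : Prop :=
  ∀ f : Ordinal.{0} → Gs, ∀ k : Ordinal.{0} → Ordinal.{0}, (∀ γ < ω₁, k γ < ω₁) →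
    ∃ d < ω₁, d ≠ 0 ∧ (∀ γ < d, Order.succ γ < d) ∧ (∀ γ < d, k γ < d) ∧ ∀ ξ < d, g d ξ = f ξ

/-- ladders inside a cofinal set -/
lemma exists_lad_in {d : Ordinal.{0}} (hd : d < ω₁) (hl : IsLim d) {Q : Set Ordinal.{0}}
    (hQ : ∀ b < d, ∃ z ∈ Q, b < z ∧ z < d) : ∃ L, Lad d L ∧ ∀ n, L n ∈ Q := by
  classical
  obtain ⟨e, he1, he2⟩ := exists_enum hd hl.1
  choose! c hc1 hc2 hc3 using hQ
  let L : ℕ → Ordinal.{0} := fun n => Nat.rec (c (e 0)) (fun n r => c (max r (e n))) n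
  have hs : ∀ n, L (n + 1) = c (max (L n) (e n)) := fun n => rfl
  have hlt : ∀ n, L n < d := by
    intro n
    induction n with
    | zero => exact hc3 _ (he1 0)
    | succ n ih => rw [hs]; exact hc3 _ (max_lt ih (he1 n))
  have hstep : ∀ n, max (L n) (e n) < L (n + 1) := fun n => by
    rw [hs]; exact hc2 _ (max_lt (hlt n) (he1 n))
  refine ⟨L, ⟨strictMono_nat_of_lt_succ fun n => lt_of_le_of_lt (le_max_left _ _) (hstep n), hlt,
    fun b hb => ?_⟩, fun n => ?_⟩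
  · obtain ⟨n, rfl⟩ := he2 b hb
    exact ⟨n + 1, lt_of_le_of_lt (le_max_right _ _) (hstep n)⟩
  · cases n with
    | zero => exact hc1 _ (he1 0)
    | succ n => rw [hs]; exact hc1 _ (max_lt (hlt n) (he1 n))

/-- every member of the limit ultrafilter is seen at every level -/
lemma Sys.seen (Y : Sys W A g) (_hW : IsPPoint W) {V : Ultrafilter ℕ}
    (hV : ∀ S, S ∈ V ↔ ∃ x < ω₁, ∀ j, S ∈ Y.F x j) {S : Set ℕ} (hS : S ∈ V) {x : Ordinal.{0}}
    (hx : x < ω₁) : ∃ j, S ∈ Y.F x j := by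
  by_contra hcon
  push Not at hcon
  have h1 : Sᶜ ∈ V := (hV _).2 ⟨x, hx, fun j => Ultrafilter.compl_mem_iff_notMem.2 (hcon j)⟩
  exact Ultrafilter.compl_mem_iff_notMem.1 h1 hS

/-- the first kind of guessing -/
lemma Sys.mode1 (Y : Sys W A g) (hW : IsPPoint W) (hg : Guess g) {V : Ultrafilter ℕ}
    (hV : ∀ S, S ∈ V ↔ ∃ x < ω₁, ∀ j, S ∈ Y.F x j) (k : ℕ) (Q : Set Ordinal.{0})
    (hQ : ∀ b < ω₁, ∃ z ∈ Q, b < z ∧ z < ω₁) (b : Ordinal.{0}) (hb : b < ω₁) :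
    ∃ d < ω₁, b < d ∧ ∀ S ∈ V, ∃ z ∈ Q, b < z ∧ z < d ∧ S ∈ Y.F z k := by
  classical
  have hQ' : ∀ c < ω₁, ∃ z, z ∈ Q ∧ max b c < z ∧ z < ω₁ := fun c hc => by
    obtain ⟨z, h1, h2, h3⟩ := hQ (max b c) (max_lt hb hc)
    exact ⟨z, h1, h2, h3⟩
  choose! q hq1 hq2 hq3 using hQ'
  obtain ⟨d, hd, h0, hsucc, hcl, hguess⟩ := hg (fun ξ => Sum.inl (k, ξ ∈ Q)) q hq3
  have hl : IsLim d := ⟨h0, hsucc⟩
  have h0d : (0 : Ordinal.{0}) < d := pos_iff_ne_zero.2 h0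
  have hbd : b < d := lt_of_le_of_lt (le_max_left b 0) ((hq2 0 (h0d.trans hd)).trans (hcl 0 h0d))
  obtain ⟨L, hL1, hL2⟩ := exists_lad_in hd hl (Q := Q) (fun c hc =>
    ⟨q c, hq1 c (hc.trans hd), lt_of_le_of_lt (le_max_right b c) (hq2 c (hc.trans hd)), hcl c hc⟩)
  obtain ⟨k', L', h1, h2, h3⟩ := (Y.ok d hd).2.2 hl
  have h4 := h3 ⟨k, L, hL1, Or.inl ⟨Q, hguess, hL2⟩⟩
  have h5 : k' = k ∧ ∀ n, L' n ∈ Q := by
    rcases h4.2 with ⟨Q', h6, h7⟩ | ⟨B, C, h6, _⟩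
    · have h8 : ∀ ξ < d, k' = k ∧ (ξ ∈ Q') = (ξ ∈ Q) := by
        intro ξ hξ
        have h9 := (hguess ξ hξ).symm.trans (h6 ξ hξ)
        have h10 := Sum.inl.inj h9
        exact ⟨(congrArg Prod.fst h10).symm, (congrArg Prod.snd h10).symm⟩
      refine ⟨(h8 0 h0d).1, fun n => ?_⟩
      rw [← (h8 (L' n) (h2.2.1 n)).2]
      exact h7 n
    · exact absurd ((hguess 0 h0d).symm.trans (h6 0 h0d)) (by simp)
  obtain ⟨hk, hL'⟩ := h5
  subst hk
  refine ⟨d, hd, hbd, fun S hS => ?_⟩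
  obtain ⟨i, hi⟩ := Y.seen hW hV hS hd
  rw [Y.mem_iff hd] at hi
  obtain ⟨n0, hn0⟩ := h2.2.2 b hbd
  have h6 : {m : ℕ | n0 ≤ m} ∈ W := cofin_mem hW (by
    refine (Set.finite_lt_nat n0).subset fun m hm => ?_
    by_contra hlt
    exact hm (not_lt.1 hlt : n0 ≤ m))
  obtain ⟨m, hm1, hm2⟩ := Ultrafilter.nonempty_of_mem (Filter.inter_mem hi h6)
  have h7 : n0 ≤ Nat.pair i m := le_trans hm2 (Nat.right_le_pair i m)
  refine ⟨L' (Nat.pair i m), hL' _, hn0.trans_le (h2.1.monotone h7), h2.2.1 _, ?_⟩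
  have h8 : S ∈ val Y.F (Y.N d (Nat.pair i m)) := hm1
  rw [h1] at h8
  exact h8

/-- extended nodes -/
abbrev NX := Node ⊕ (ℕ ⊕ (ℕ × ℕ))

/-- the ordinals occurring are below `d` -/
def Below (d : Ordinal.{0}) : NX → Prop
  | Sum.inl (Sum.inl _) => True
  | Sum.inl (Sum.inr p) => p.1 < d
  | Sum.inr _ => True

lemma countable_below {d : Ordinal.{0}} (hd : d < ω₁) : Countable {ν : NX // Below d ν} := by
  have h1 : {ν : NX | Below d ν} ⊆ (Set.range fun x : ℕ => (Sum.inl (Sum.inl x) : NX)) ∪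
      ((fun p : Ordinal.{0} × ℕ => (Sum.inl (Sum.inr p) : NX)) '' (Set.Iio d ×ˢ Set.univ)) ∪
      (Set.range fun x : ℕ ⊕ (ℕ × ℕ) => (Sum.inr x : NX)) := by
    rintro ((x | p) | x) h
    · exact Or.inl (Or.inl ⟨x, rfl⟩)
    · exact Or.inl (Or.inr ⟨p, ⟨h, Set.mem_univ _⟩, rfl⟩)
    · exact Or.inr ⟨x, rfl⟩
  have h2 : ({ν : NX | Below d ν}).Countable := by
    refine Set.Countable.mono h1 ?_
    refine ((Set.countable_range _).union ?_).union (Set.countable_range _)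
    exact ((countable_Iio hd).prod Set.countable_univ).image _
  exact h2.to_subtype

/-- children -/
def chX (Y : Sys W A g) : NX → ℕ → NX
  | Sum.inl (Sum.inr p), m => Sum.inl (Y.N p.1 (Nat.pair p.2 m))
  | Sum.inr (Sum.inl n), m => Sum.inr (Sum.inr (n, m))
  | ν, _ => ν

/-- inner nodes -/
def innerX : Set NX := {ν | (∃ p, ν = Sum.inl (Sum.inr p)) ∨ ∃ n, ν = Sum.inr (Sum.inl n)}

/-- the nodes which contain `B`, or belong to `C` -/
def TX (Y : Sys W A g) (B : Set ℕ) (C : ℕ → Set ℕ) : Set NX := fun ν =>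
  match ν with
  | Sum.inl ν => B ∈ val Y.F ν
  | Sum.inr (Sum.inl _) => True
  | Sum.inr (Sum.inr p) => p.2 ∈ C p.1

lemma Sys.node_below (Y : Sys W A g) {x : Ordinal.{0}} (hx : x < ω₁) (n : ℕ) :
    Below x (Sum.inl (Y.N x n)) := by
  rcases trich x with h0 | ⟨e, he⟩ | hl
  · rw [(Y.ok x hx).1 h0]; exact trivial
  · obtain ⟨J, _, h2, _⟩ := (Y.ok x hx).2.1 e he
    rw [h2 n]
    show e < x
    rw [he]; exact Order.lt_succ e
  · obtain ⟨k, L, h1, h2, _⟩ := (Y.ok x hx).2.2 hl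
    rw [h1 n]
    exact h2.2.1 n

lemma Below.mono {c d : Ordinal.{0}} (h : c ≤ d) {ν : NX} (hν : Below c ν) : Below d ν := by
  rcases ν with (x | p) | x
  · exact trivial
  · exact lt_of_lt_of_le hν h
  · exact trivial

lemma Sys.ch_below (Y : Sys W A g) {d : Ordinal.{0}} (hd : d < ω₁) {ν : NX} (hν : Below d ν)
    (m : ℕ) : Below d (chX Y ν m) := by
  rcases ν with (x | p) | (n | q)
  · exact trivial
  · have hp : p.1 < d := hν
    exact (Y.node_below (hp.trans hd) _).mono hp.le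
  · exact trivial
  · exact trivial

lemma Sys.TX_ch (Y : Sys W A g) {B : Set ℕ} {C : ℕ → Set ℕ} (hC : ∀ n, C n ∈ W)
    {d : Ordinal.{0}} (hd : d < ω₁) {ν : NX} (hν : Below d ν) (hi : ν ∈ innerX)
    (h : ν ∈ TX Y B C) : {m | chX Y ν m ∈ TX Y B C} ∈ W := by
  rcases hi with ⟨p, rfl⟩ | ⟨n, rfl⟩
  · have hp : p.1 < d := hν
    exact (Y.mem_iff (hp.trans hd)).1 h
  · exact hC n

/-- the ladder on which everything happens -/
lemma Sys.kill (Y : Sys W A g) (hW : IsPPoint W) {d : Ordinal.{0}} (hd : d < ω₁) (hl : IsLim d)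
    (k : ℕ) (B : Ordinal.{0} → Set ℕ) (C : Ordinal.{0} → ℕ → Set ℕ) (hC : ∀ ξ n, C ξ n ∈ W)
    (η : Ordinal.{0}) (α : Ordinal.{0} → Ordinal.{0}) (hα : ∀ ξ < d, α ξ < d)
    (hα' : ∀ ξ < d, ∀ y, α ξ ≤ y → y < ω₁ → ∀ j, B ξ ∈ Y.F y j)
    (hcl : ∀ S : Finset NX, (∀ ν ∈ S, Below d ν ∧ ν ∈ TX Y (B η) (C η)) → ∀ b < d,
      ∃ z, b < z ∧ z < d ∧ B z ∈ Y.F z k ∧ B η ∈ Y.F z k ∧ ∀ ν ∈ S, ν ∈ TX Y (B z) (C z)) :
    ∃ L, Lad d L ∧ (∀ n, (⋂ l, B (L l)) ∈ Y.F (L n) k) ∧ ∀ n, (⋂ l, C (L l) n) ∈ W := by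
  classical
  have := countable_below hd
  obtain ⟨e, he1, he2⟩ := exists_enum hd hl.1
  let N := {ν : NX // Below d ν}
  let Idx := {ξ : Ordinal.{0} // ξ < d ∧ B ξ ∈ Y.F ξ k}
  let inner : Set N := {ν | ν.1 ∈ innerX}
  let ch : N → ℕ → N := fun ν m => ⟨chX Y ν.1 m, Y.ch_below hd ν.2 m⟩
  let Θ : Idx → Set N := fun ξ => {ν | ν.1 ∈ TX Y (B ξ.1) (C ξ.1)}
  let Θs : Set N := {ν | ν.1 ∈ TX Y (B η) (C η)}
  let new : ℕ → Idx → Finset N := fun l ξ =>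
    {⟨Sum.inl (Sum.inr (ξ.1, k)), ξ.2.1⟩, ⟨Sum.inr (Sum.inl l), trivial⟩}
  let P : List Idx → Idx → Prop := fun R ξ => (∀ ζ ∈ R, ζ.1 < ξ.1) ∧ e R.length < ξ.1
  have hbound : ∀ R : List Idx, ∃ b < d, e R.length ≤ b ∧ ∀ ζ ∈ R, ζ.1 ≤ b ∧ α ζ.1 ≤ b := by
    intro R
    have : ∀ c < d, ∃ b < d, c ≤ b ∧ ∀ ζ ∈ R, ζ.1 ≤ b ∧ α ζ.1 ≤ b := by
      induction R with
      | nil => intro c hc; exact ⟨c, hc, le_rfl, by simp⟩
      | cons ζ R ih =>
        intro c hc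
        obtain ⟨b, hb1, hb2, hb3⟩ := ih (max c (max ζ.1 (α ζ.1)))
          (max_lt hc (max_lt ζ.2.1 (hα _ ζ.2.1)))
        refine ⟨b, hb1, (le_max_left _ _).trans hb2, fun ζ' hζ' => ?_⟩
        rcases List.mem_cons.1 hζ' with rfl | h
        · exact ⟨((le_max_left _ _).trans (le_max_right _ _)).trans hb2,
            ((le_max_right _ _).trans (le_max_right _ _)).trans hb2⟩
        · exact hb3 _ h
    exact this _ (he1 _)
  obtain ⟨z, S, hz1, hz2, hz3, hz4⟩ := fusion hW inner ch Θ Θs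
    (fun ξ ν hν hi => Y.TX_ch (hC _) hd ν.2 hi hν)
    (fun ν hν hi => Y.TX_ch (hC _) hd ν.2 hi hν) new P (by
      intro R S hS hR
      obtain ⟨b, hb1, hb2, hb3⟩ := hbound R
      obtain ⟨z, hz1, hz2, hz3, hz4, hz5⟩ := hcl (S.image Subtype.val) (by
        intro ν hν
        obtain ⟨ν', hν', rfl⟩ := Finset.mem_image.1 hν
        exact ⟨ν'.2, hS hν'⟩) b hb1
      refine ⟨⟨z, hz2, hz3⟩, ⟨fun ζ hζ => lt_of_le_of_lt (hb3 ζ hζ).1 hz1,
        lt_of_le_of_lt hb2 hz1⟩, fun ν hν => hz5 _ (Finset.mem_image_of_mem _ hν), ?_, ?_, ?_⟩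
      · intro ν hν
        rcases Finset.mem_insert.1 (Finset.mem_coe.1 hν) with rfl | h
        · exact hz4
        · rw [Finset.mem_singleton.1 h]; exact trivial
      · intro ν hν
        rcases Finset.mem_insert.1 (Finset.mem_coe.1 hν) with rfl | h
        · exact hz3
        · rw [Finset.mem_singleton.1 h]; exact trivial
      · intro ζ hζ ν hν
        rcases Finset.mem_insert.1 (Finset.mem_coe.1 hν) with rfl | h
        · exact hα' _ ζ.2.1 z ((hb3 ζ hζ).2.trans hz1.le) (hz2.trans hd) k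
        · rw [Finset.mem_singleton.1 h]; exact trivial)
  have hlist : ∀ {i l : ℕ}, i < l → z i ∈ (List.ofFn (fun i : Fin l => z i)).reverse := by
    intro i l hil
    rw [List.mem_reverse, List.mem_ofFn]
    exact ⟨⟨i, hil⟩, rfl⟩
  have hmain : ∀ x : Ordinal.{0}, ∀ (hx : x < d) (j : ℕ),
      (⟨Sum.inl (Sum.inr (x, j)), hx⟩ : N) ∈ S → (⋂ l, B (z l).1) ∈ Y.F x j := by
    intro x
    induction x using WellFoundedLT.induction with
    | ind x ih =>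
      intro hx j hS
      rw [Y.mem_iff (hx.trans hd)]
      refine Filter.mem_of_superset (hz4 _ hS (Or.inl ⟨_, rfl⟩)) fun m hm => ?_
      show (⋂ l, B (z l).1) ∈ val Y.F (Y.N x (Nat.pair j m))
      have hm' : ∃ h : Below d (Sum.inl (Y.N x (Nat.pair j m))),
          (⟨Sum.inl (Y.N x (Nat.pair j m)), h⟩ : N) ∈ S := ⟨_, hm⟩
      have hb := Y.node_below (hx.trans hd) (Nat.pair j m)
      generalize hν : Y.N x (Nat.pair j m) = ν at hm' hb ⊢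
      rcases ν with y | ⟨x', j'⟩
      · show _ ∈ (pure y : Ultrafilter ℕ)
        rw [Ultrafilter.mem_pure, Set.mem_iInter]
        intro l
        obtain ⟨h1, h2⟩ := hm'
        exact hz2 l h2
      · obtain ⟨h1, h2⟩ := hm'
        exact ih x' hb _ j' h2
  refine ⟨fun n => (z n).1, ⟨?_, fun n => (z n).2.1, ?_⟩, ?_, ?_⟩
  · intro i l hil
    exact (hz1 l).1 _ (hlist hil)
  · intro b hb
    obtain ⟨n, rfl⟩ := he2 b hb
    refine ⟨n, ?_⟩
    have := (hz1 n).2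
    rwa [List.length_reverse, List.length_ofFn] at this
  · intro n
    exact hmain _ (z n).2.1 k (hz3 n (Finset.mem_coe.2 (Finset.mem_insert_self _ _)))
  · intro n
    have h1 : (⟨Sum.inr (Sum.inl n), trivial⟩ : N) ∈ S :=
      hz3 n (Finset.mem_coe.2 (Finset.mem_insert_of_mem (Finset.mem_singleton_self _)))
    refine Filter.mem_of_superset (hz4 _ h1 (Or.inr ⟨n, rfl⟩)) fun m hm => ?_
    rw [Set.mem_iInter]
    intro l
    exact hz2 l hm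

end Pool.Agent.Helper73.TK
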