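import Pool.Agent.Helper73.TK.Defs

set_option autoImplicit false

namespace Pool.Agent.Helper73.TK

open Set Ordinal Cardinal

/-- Nodes: natural numbers (points) or pairs (countable ordinal, number). -/
abbrev Node := ℕ ⊕ (Ordinal.{0} × ℕ)

/-- The ultrafilter of a node. -/
def val (F : Ordinal.{0} → ℕ → Ultrafilter ℕ) : Node → Ultrafilter ℕ
  | Sum.inl x => pure x
  | Sum.inr p => F p.1 p.2

/-- What Diamond guesses. -/
abbrev Gs := (ℕ × Prop) ⊕ (ℕ × Set ℕ × (ℕ → Set ℕ))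

/-- strictly increasing cofinal sequences of type omega -/
def Lad (d : Ordinal.{0}) (L : ℕ → Ordinal.{0}) : Prop :=
  StrictMono L ∧ (∀ n, L n < d) ∧ ∀ b < d, ∃ n, b < L n

/-- limit ordinals -/
def IsLim (d : Ordinal.{0}) : Prop := d ≠ 0 ∧ ∀ a < d, Order.succ a < d

/-- the ladder captures the guess -/
def Good (W : Ultrafilter ℕ) (gd : Ordinal.{0} → Gs) (d : Ordinal.{0})
    (F : Ordinal.{0} → ℕ → Ultrafilter ℕ) (k : ℕ) (L : ℕ → Ordinal.{0}) : Prop :=
  Lad d L ∧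
  ((∃ Q : Set Ordinal.{0}, (∀ ξ < d, gd ξ = Sum.inl (k, ξ ∈ Q)) ∧ ∀ n, L n ∈ Q) ∨
   (∃ (B : Ordinal.{0} → Set ℕ) (C : Ordinal.{0} → ℕ → Set ℕ),
      (∀ ξ < d, gd ξ = Sum.inr (k, B ξ, C ξ)) ∧ (∀ n, (⋂ l, B (L l)) ∈ F (L n) k) ∧
        ∀ n, (⋂ l, C (L l) n) ∈ W))

/-- the requirement on the sequence of nodes at stage `d` -/
def Ok (W : Ultrafilter ℕ) (A : Ordinal.{0} → Set ℕ) (g : Ordinal.{0} → Ordinal.{0} → Gs)
    (d : Ordinal.{0}) (F : Ordinal.{0} → ℕ → Ultrafilter ℕ) (N : ℕ → Node) : Prop :=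
  (d = 0 → N = Sum.inl) ∧
  (∀ e, d = Order.succ e → ∃ J : ℕ → ℕ, Function.Injective J ∧ (∀ n, N n = Sum.inr (e, J n)) ∧
    ((∀ n, A e ∈ F e (J n)) ∨ (∀ n, (A e)ᶜ ∈ F e (J n)))) ∧
  (IsLim d → ∃ (k : ℕ) (L : ℕ → Ordinal.{0}), (∀ n, N n = Sum.inr (L n, k)) ∧ Lad d L ∧
    ((∃ k L, Good W (g d) d F k L) → Good W (g d) d F k L))

lemma not_lim_succ {e : Ordinal.{0}} : ¬ IsLim (Order.succ e) := fun h =>
  absurd (h.2 e (Order.lt_succ e)) (lt_irrefl _)

lemma countable_Iio {d : Ordinal.{0}} (hd : d < ω₁) : (Set.Iio d).Countable := by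
  rw [← Cardinal.le_aleph0_iff_set_countable, Cardinal.mk_Iio_ordinal]
  have h1 : d.card < ℵ₁ := by
    rw [← Cardinal.lt_ord, Cardinal.ord_aleph]; exact hd
  have h2 : d.card ≤ ℵ₀ := by
    rw [← Order.lt_succ_iff, Cardinal.succ_aleph0]; exact h1
  rw [← Cardinal.lift_aleph0.{1,0}]
  exact Cardinal.lift_le.2 h2

/-- a sequence running through all smaller ordinals -/
lemma exists_enum {d : Ordinal.{0}} (hd : d < ω₁) (h0 : d ≠ 0) :
    ∃ e : ℕ → Ordinal.{0}, (∀ n, e n < d) ∧ ∀ b < d, ∃ n, e n = b := by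
  obtain ⟨e, he⟩ := (countable_Iio hd).exists_eq_range ⟨0, pos_iff_ne_zero.2 h0⟩
  refine ⟨e, fun n => ?_, fun b hb => ?_⟩
  · have : e n ∈ Set.Iio d := by rw [he]; exact ⟨n, rfl⟩
    exact this
  · have : b ∈ Set.range e := by rw [← he]; exact hb
    exact this

/-- countable limit ordinals have ladders -/
lemma exists_lad {d : Ordinal.{0}} (hd : d < ω₁) (hl : IsLim d) : ∃ L, Lad d L := by
  obtain ⟨e, he1, he2⟩ := exists_enum hd hl.1
  let L : ℕ → Ordinal.{0} := fun n => Nat.rec (e 0) (fun n r => Order.succ (max r (e n))) n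
  have hs : ∀ n, L (n + 1) = Order.succ (max (L n) (e n)) := fun n => rfl
  have hlt : ∀ n, L n < d := by
    intro n
    induction n with
    | zero => exact he1 0
    | succ n ih => rw [hs]; exact hl.2 _ (max_lt ih (he1 n))
  refine ⟨L, strictMono_nat_of_lt_succ fun n => ?_, hlt, fun b hb => ?_⟩
  · rw [hs]; exact lt_of_le_of_lt (le_max_left _ _) (Order.lt_succ _)
  · obtain ⟨n, rfl⟩ := he2 b hb
    exact ⟨n + 1, by rw [hs]; exact lt_of_le_of_lt (le_max_right _ _) (Order.lt_succ _)⟩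

lemma trich (d : Ordinal.{0}) : d = 0 ∨ (∃ e, d = Order.succ e) ∨ IsLim d := by
  by_cases h0 : d = 0
  · exact Or.inl h0
  · by_cases h1 : ∃ e, d = Order.succ e
    · exact Or.inr (Or.inl h1)
    · refine Or.inr (Or.inr ⟨h0, fun a ha => ?_⟩)
      rcases (Order.succ_le_of_lt ha).lt_or_eq with h | h
      · exact h
      · exact absurd ⟨a, h.symm⟩ h1

lemma exists_N (W : Ultrafilter ℕ) (A : Ordinal.{0} → Set ℕ) (g : Ordinal.{0} → Ordinal.{0} → Gs)
    {d : Ordinal.{0}} (hd : d < ω₁) (F : Ordinal.{0} → ℕ → Ultrafilter ℕ) :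
    ∃ N, Ok W A g d F N := by
  rcases trich d with rfl | ⟨e, rfl⟩ | hl
  · refine ⟨Sum.inl, fun _ => rfl, fun e he => ?_, fun h => absurd rfl h.1⟩
    exact absurd he (Order.succ_ne_bot e).symm
  · have key : ∃ J : ℕ → ℕ, Function.Injective J ∧
        ((∀ n, A e ∈ F e (J n)) ∨ (∀ n, (A e)ᶜ ∈ F e (J n))) := by
      by_cases hinf : {j | A e ∈ F e j}.Infinite
      · exact ⟨fun n => (hinf.natEmbedding _ n : ℕ), fun a b hab =>
          (hinf.natEmbedding _).injective (Subtype.ext hab),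
          Or.inl fun n => (hinf.natEmbedding _ n).2⟩
      · have hinf' : {j | A e ∈ F e j}ᶜ.Infinite := (Set.not_infinite.1 hinf).infinite_compl
        refine ⟨fun n => (hinf'.natEmbedding _ n : ℕ), fun a b hab =>
          (hinf'.natEmbedding _).injective (Subtype.ext hab), Or.inr fun n => ?_⟩
        have := (hinf'.natEmbedding _ n).2
        rw [Ultrafilter.compl_mem_iff_notMem]
        exact this
    obtain ⟨J, hJ1, hJ2⟩ := key
    refine ⟨fun n => Sum.inr (e, J n), fun h => absurd h (Order.succ_ne_bot e), fun e' he' => ?_,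
      fun h => absurd h not_lim_succ⟩
    have : e = e' := Order.succ_injective he'
    subst this
    exact ⟨J, hJ1, fun _ => rfl, hJ2⟩
  · by_cases hg : ∃ k L, Good W (g d) d F k L
    · obtain ⟨k, L, hkL⟩ := hg
      refine ⟨fun n => Sum.inr (L n, k), fun h => absurd h hl.1, fun e he => ?_, fun _ => ?_⟩
      · subst he; exact absurd hl not_lim_succ
      · exact ⟨k, L, fun _ => rfl, hkL.1, fun _ => hkL⟩
    · obtain ⟨L, hL⟩ := exists_lad hd hl
      refine ⟨fun n => Sum.inr (L n, 0), fun h => absurd h hl.1, fun e he => ?_, fun _ => ?_⟩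
      · subst he; exact absurd hl not_lim_succ
      · exact ⟨0, L, fun _ => rfl, hL, fun h => absurd h hg⟩

lemma Good.congr {W : Ultrafilter ℕ} {gd : Ordinal.{0} → Gs} {d : Ordinal.{0}}
    {F G : Ordinal.{0} → ℕ → Ultrafilter ℕ} (h : ∀ ζ < d, F ζ = G ζ) {k : ℕ} {L : ℕ → Ordinal.{0}}
    (hG : Good W gd d F k L) : Good W gd d G k L := by
  refine ⟨hG.1, ?_⟩
  rcases hG.2 with h1 | ⟨B, C, h1, h2, h3⟩
  · exact Or.inl h1
  · refine Or.inr ⟨B, C, h1, fun n => ?_, h3⟩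
    rw [← h _ (hG.1.2.1 n)]
    exact h2 n

lemma Ok.congr {W : Ultrafilter ℕ} {A : Ordinal.{0} → Set ℕ} {g : Ordinal.{0} → Ordinal.{0} → Gs}
    {d : Ordinal.{0}} {F G : Ordinal.{0} → ℕ → Ultrafilter ℕ} (h : ∀ ζ < d, F ζ = G ζ)
    {N : ℕ → Node} (hF : Ok W A g d F N) : Ok W A g d G N := by
  refine ⟨hF.1, fun e he => ?_, fun hl => ?_⟩
  · obtain ⟨J, h1, h2, h3⟩ := hF.2.1 e he
    refine ⟨J, h1, h2, ?_⟩
    rw [← h e (he ▸ Order.lt_succ e)]
    exact h3
  · obtain ⟨k, L, h1, h2, h3⟩ := hF.2.2 hl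
    refine ⟨k, L, h1, h2, fun ⟨k', L', h4⟩ => ?_⟩
    exact (h3 ⟨k', L', h4.congr (fun ζ hζ => (h ζ hζ).symm)⟩).congr h

/-- the recursion -/
theorem exists_fam (W : Ultrafilter ℕ) (A : Ordinal.{0} → Set ℕ)
    (g : Ordinal.{0} → Ordinal.{0} → Gs) :
    ∃ (F : Ordinal.{0} → ℕ → Ultrafilter ℕ) (N : Ordinal.{0} → ℕ → Node),
      ∀ d < ω₁, Ok W A g d F (N d) ∧
        ∀ i, F d i = Ultrafilter.bind W (fun m => val F (N d (Nat.pair i m))) := by
  classical
  let step : Ordinal.{0} → (Ordinal.{0} → ℕ → Ultrafilter ℕ) → ℕ → Node := fun d F =>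
    if h : ∃ N, Ok W A g d F N then Classical.choose h else Sum.inl
  have hstep : ∀ d F, d < ω₁ → Ok W A g d F (step d F) := by
    intro d F hd
    have h := exists_N W A g hd F
    simp only [step, dif_pos h]
    exact Classical.choose_spec h
  let ext : (d : Ordinal.{0}) → ((ζ : Ordinal.{0}) → ζ < d → ℕ → Ultrafilter ℕ) →
      Ordinal.{0} → ℕ → Ultrafilter ℕ := fun d f ζ => if h : ζ < d then f ζ h else fun _ => pure 0
  let F : Ordinal.{0} → ℕ → Ultrafilter ℕ := WellFounded.fix (Ordinal.lt_wf)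
    (fun d f i => Ultrafilter.bind W (fun m => val (ext d f) (step d (ext d f) (Nat.pair i m))))
  let R : Ordinal.{0} → Ordinal.{0} → ℕ → Ultrafilter ℕ := fun d ζ =>
    if ζ < d then F ζ else fun _ => pure 0
  have hF : ∀ d, F d = fun i => Ultrafilter.bind W
      (fun m => val (R d) (step d (R d) (Nat.pair i m))) := by
    intro d
    have h1 := WellFounded.fix_eq (Ordinal.lt_wf)
      (fun (d : Ordinal.{0}) (f : (ζ : Ordinal.{0}) → ζ < d → ℕ → Ultrafilter ℕ) (i : ℕ) =>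
        Ultrafilter.bind W (fun m => val (ext d f) (step d (ext d f) (Nat.pair i m)))) d
    have h2 : ext d (fun ζ _ => F ζ) = R d := by
      funext ζ
      by_cases h : ζ < d
      · simp only [ext, R, dif_pos h, if_pos h]
      · simp only [ext, R, dif_neg h, if_neg h]
    have h3 : F d = fun i => Ultrafilter.bind W (fun m => val (ext d (fun ζ _ => F ζ))
        (step d (ext d (fun ζ _ => F ζ)) (Nat.pair i m))) := h1
    rw [h3, h2]
  refine ⟨F, fun d => step d (R d), fun d hd => ?_⟩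
  have hR : ∀ ζ < d, R d ζ = F ζ := fun ζ hζ => by simp only [R, if_pos hζ]
  have hok := hstep d (R d) hd
  refine ⟨hok.congr hR, fun i => ?_⟩
  have hv : ∀ n, val (R d) (step d (R d) n) = val F (step d (R d) n) := by
    intro n
    rcases trich d with h0 | ⟨e, he⟩ | hl
    · rw [hok.1 h0]; rfl
    · obtain ⟨J, _, h2, _⟩ := hok.2.1 e he
      rw [h2 n]
      show R d e (J n) = F e (J n)
      rw [hR e (he ▸ Order.lt_succ e)]
    · obtain ⟨k, L, h1, h2, _⟩ := hok.2.2 hl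
      rw [h1 n]
      show R d (L n) k = F (L n) k
      rw [hR _ (h2.2.1 n)]
  rw [hF d]
  show Ultrafilter.bind W _ = _
  simp only [hv]

end Pool.Agent.Helper73.TK
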